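import Mathlib
import Pool.Agent.Q304.SK.Clop

/-!
# MP_013c33_an, Q1: the Stone space of the clopen algebra of a sick compactum is sick
-/

set_option autoImplicit false

open TopologicalSpace

namespace Pool.Agent.Results.MP_013c33_an.StoneSpaceSick

universe u v

/-- `K` is sick: there are a separable Banach lattice `E`, an element `x ≥ 0` of `E` and a linear
injection `T : C(K) → E` preserving the lattice operations, with `T 1 = x`, whose range is the
principal ideal `E_x = {y : |y| ≤ r x for some r > 0}`. -/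
def Sick (K : Type u) [TopologicalSpace K] : Prop :=
  ∃ (E : Type v) (_ : NormedAddCommGroup E) (_ : Lattice E) (_ : HasSolidNorm E)
    (_ : IsOrderedAddMonoid E) (_ : NormedSpace ℝ E) (_ : PosSMulMono ℝ E) (_ : CompleteSpace E)
    (_ : SeparableSpace E) (x : E) (T : C(K, ℝ) →ₗ[ℝ] E),
    0 ≤ x ∧ Function.Injective T ∧ (∀ f g, T (f ⊔ g) = T f ⊔ T g) ∧
    (∀ f g, T (f ⊓ g) = T f ⊓ T g) ∧ T 1 = x ∧
    Set.range T = {y : E | ∃ r : ℝ, 0 < r ∧ |y| ≤ r • x}

/-- The Stone space of `Clop(K)`: the Boolean homomorphisms `p : Clop(K) → {0, 1}` (`p` is the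
characteristic function of an ultrafilter of `Clop(K)`), with the topology of pointwise
convergence, whose basic sets are `{p : p A = 1}`, `A ∈ Clop(K)`. -/
def StoneClop (K : Type u) [TopologicalSpace K] : Type u :=
  {p : Clopens K → Bool // p ⊤ = true ∧ (∀ A B, p (A ⊓ B) = (p A && p B)) ∧ ∀ A, p Aᶜ = !(p A)}

instance {K : Type u} [TopologicalSpace K] : TopologicalSpace (StoneClop K) :=
  instTopologicalSpaceSubtype

theorem result (K : Type u) [TopologicalSpace K] [CompactSpace K] [T2Space K]
    (hK : Sick.{u, v} K) : Sick.{u, v} (StoneClop K) :=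
  Pool.Agent.Q304.SK.sick_stone hK

end Pool.Agent.Results.MP_013c33_an.StoneSpaceSick
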